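import Pool.Agent.Helper70.SUB.SheetW
import Pool.Agent.Helper15.SUB.AV
import Pool.Agent.Helper9.SUBK.GALA
import Pool.Agent.Helper9.SUBK.INTG
import Pool.Agent.Helper89.SUBK.DEN
import Pool.Agent.Helper94.SUBK.SVB

/-!
Project SUBW, row SLW: closure properties of slow sequences.
-/

set_option autoImplicit false

namespace Pool.Agent.Helper94.SUBW

open Filter Finset Pool.Agent.Helper70.SUB Pool.Agent.Helper77.SUBK Pool.Agent.Helper70.SUBW

/-- the pointwise version -/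
def SP {M : Type} [Field M] [NumberField M] {S : Finset ℕ} (P : PF S M) (H : ℝ) (z : M) : Prop :=
  ∃ D : ℕ, D ≠ 0 ∧ (D : ℝ) ≤ H ∧ IsIntegral ℤ ((D : M) * z) ∧
    ∀ σ : M ≃ₐ[ℚ] M, P.nv none (σ z) ≤ H

section pointwise

variable {M : Type} [Field M] [NumberField M] {S : Finset ℕ} (P : PF S M)

theorem slw_iff (φ : Ultrafilter ℕ) (X : ℕ → ℝ) (z : ℕ → M) :
    Slw P φ X z ↔ ∀ ε : ℝ, 0 < ε → ∀ᶠ j in (φ : Filter ℕ), SP P (X j ^ ε) (z j) := Iff.rfl

variable {P}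

theorem SP_mono {H H' : ℝ} (h : H ≤ H') {z : M} (hz : SP P H z) : SP P H' z := by
  obtain ⟨D, h1, h2, h3, h4⟩ := hz
  exact ⟨D, h1, h2.trans h, h3, fun σ => (h4 σ).trans h⟩

theorem isInt_natM (n : ℕ) : IsIntegral ℤ (n : M) := by
  have : (n : M) = algebraMap ℤ M (n : ℤ) := by simp
  rw [this]
  exact isIntegral_algebraMap

theorem nat_none (n : ℕ) : P.nv none (n : M) = n := by
  rw [P.natCast mem_none]
  simp [av]

theorem SP_ex (c : M) : ∃ H : ℝ, SP P H c := by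
  classical
  obtain ⟨S', hS', D, hD, hi⟩ := Pool.Agent.Helper94.SUBK.ex_SI c
  refine ⟨max (D : ℝ) (∑ σ : M ≃ₐ[ℚ] M, P.nv none (σ c)), D, hD.1, le_max_left _ _, hi,
    fun σ => le_max_of_le_right ?_⟩
  exact Finset.single_le_sum (f := fun σ : M ≃ₐ[ℚ] M => P.nv none (σ c))
    (fun τ _ => P.nn _ _) (Finset.mem_univ σ)

theorem SP_add {H : ℝ} (hH : 1 ≤ H) {z z' : M} (hz : SP P H z) (hz' : SP P H z') :
    SP P (2 * H ^ 2) (z + z') := by
  obtain ⟨D, h1, h2, h3, h4⟩ := hz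
  obtain ⟨D', h1', h2', h3', h4'⟩ := hz'
  have hDD : (D : ℝ) * D' ≤ H ^ 2 := by
    rw [sq]
    exact mul_le_mul h2 h2' (Nat.cast_nonneg _) (by linarith)
  have hH2 : 0 ≤ H ^ 2 := by positivity
  refine ⟨D * D', mul_ne_zero h1 h1', by push_cast; linarith, ?_, fun σ => ?_⟩
  · have h : ((D * D' : ℕ) : M) * (z + z') = (D' : M) * ((D : M) * z) + (D : M) * ((D' : M) * z') := by
      push_cast; ring
    rw [h]
    exact ((isInt_natM D').mul h3).add ((isInt_natM D).mul h3')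
  · rw [map_add]
    refine (P.add none mem_none _ _).trans ?_
    have := h4 σ
    have := h4' σ
    nlinarith

theorem SP_mul {H : ℝ} (hH : 1 ≤ H) {z z' : M} (hz : SP P H z) (hz' : SP P H z') :
    SP P (H ^ 2) (z * z') := by
  obtain ⟨D, h1, h2, h3, h4⟩ := hz
  obtain ⟨D', h1', h2', h3', h4'⟩ := hz'
  have hDD : (D : ℝ) * D' ≤ H ^ 2 := by
    rw [sq]
    exact mul_le_mul h2 h2' (Nat.cast_nonneg _) (by linarith)
  refine ⟨D * D', mul_ne_zero h1 h1', by push_cast; exact hDD, ?_, fun σ => ?_⟩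
  · have h : ((D * D' : ℕ) : M) * (z * z') = ((D : M) * z) * ((D' : M) * z') := by
      push_cast; ring
    rw [h]
    exact h3.mul h3'
  · rw [map_mul, P.mul none mem_none, sq]
    exact mul_le_mul (h4 σ) (h4' σ) (P.nn _ _) (by linarith)

theorem SP_conj {H : ℝ} {z : M} (hz : SP P H z) (τ : M ≃ₐ[ℚ] M) : SP P H (τ z) := by
  obtain ⟨D, h1, h2, h3, h4⟩ := hz
  refine ⟨D, h1, h2, ?_, fun σ => ?_⟩
  · have h : (D : M) * τ z = (τ : M →+* M) ((D : M) * z) := by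
      simp
    rw [h]
    exact h3.map (τ : M →+* M).toIntAlgHom
  · exact h4 (σ * τ)

theorem SP_nv (hS : ∀ p ∈ S, p.Prime) {H : ℝ} {z : M} (hz : SP P H z) {v : Option ℕ}
    (hv : v ∈ plc S) (σ : M ≃ₐ[ℚ] M) : P.nv v (σ z) ≤ H := by
  have hAV := Pool.Agent.Helper15.SUB.AV
  obtain ⟨D, h1, h2, h3, h4⟩ := SP_conj hz σ
  cases v with
  | none => exact h4 1
  | some p =>
    have hp := of_mem_some hv
    have h5 : P.nv (some p) ((D : M) * σ z) ≤ 1 := P.integral_le hAV hS hp h3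
    rw [P.mul _ hv, P.natCast hv] at h5
    have hD0 : ((D : ℕ) : ℤ) ≠ 0 := by exact_mod_cast h1
    have h6 := (hAV.2.2 S hS).2.2.2.2.2.1 p hp (D : ℤ) hD0
    rw [Int.cast_natCast, Int.cast_natCast, Nat.abs_cast] at h6
    have h7 : (0 : ℝ) < D := by exact_mod_cast Nat.pos_of_ne_zero h1
    have h8 : 0 ≤ P.nv (some p) (σ z) := P.nn _ _
    have h9 : P.nv (some p) (σ z) ≤ D := by
      calc P.nv (some p) (σ z) = 1 * P.nv (some p) (σ z) := (one_mul _).symm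
        _ ≤ (av (some p) (D : ℚ) * D) * P.nv (some p) (σ z) := mul_le_mul_of_nonneg_right h6 h8
        _ = (av (some p) (D : ℚ) * P.nv (some p) (σ z)) * D := by ring
        _ ≤ 1 * D := mul_le_mul_of_nonneg_right h5 h7.le
        _ = D := one_mul _
    exact h9.trans h2

theorem SP_root {H : ℝ} (hH : 1 ≤ H) {z : M} {n : ℕ} (hn : n ≠ 0) (hz : SP P H (z ^ n)) :
    SP P H z := by
  obtain ⟨D, h1, h2, h3, h4⟩ := hz
  refine ⟨D, h1, h2, ?_, fun σ => ?_⟩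
  · have h : ((D : M) * z) ^ n = (D : M) ^ (n - 1) * ((D : M) * z ^ n) := by
      obtain ⟨m, rfl⟩ := Nat.exists_eq_succ_of_ne_zero hn
      rw [Nat.succ_sub_one, Nat.succ_eq_add_one]
      ring
    have h5 : IsIntegral ℤ (((D : M) * z) ^ n) := by
      rw [h]
      exact ((isInt_natM D).pow _).mul h3
    exact IsIntegral.of_pow (Nat.pos_of_ne_zero hn) h5
  · have h5 := h4 σ
    rw [map_pow, P.pow mem_none] at h5
    by_contra hc
    push Not at hc
    have h6 : H < P.nv none (σ z) ^ n :=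
      lt_of_lt_of_le hc (le_self_pow₀ (by linarith) hn)
    linarith

theorem SP_inv [IsGalois ℚ M] (hS : ∀ p ∈ S, p.Prime) {H : ℝ} (hH : 1 ≤ H) {z : M} (hz : SP P H z) :
    SP P (H ^ (2 * Fintype.card (M ≃ₐ[ℚ] M) + 1)) z⁻¹ := by
  classical
  rcases eq_or_ne z 0 with rfl | hz0
  · rw [inv_zero]
    exact SP_mono (le_self_pow₀ hH (by omega)) hz
  obtain ⟨D, h1, h2, h3, h4⟩ := hz
  obtain ⟨-, g2, -⟩ := Pool.Agent.Helper9.SUBK.st_GALA M S P hS
  set g := Fintype.card (M ≃ₐ[ℚ] M) with hg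
  have hD0 : (D : M) ≠ 0 := by exact_mod_cast h1
  have hD1 : (1 : ℝ) ≤ D := by exact_mod_cast Nat.one_le_iff_ne_zero.mpr h1
  obtain ⟨y, hy⟩ : ∃ y : M, y = (D : M) * z := ⟨_, rfl⟩
  have hy0 : y ≠ 0 := by rw [hy]; exact mul_ne_zero hD0 hz0
  have hyi : IsIntegral ℤ y := by rw [hy]; exact h3
  have hyb : ∀ σ : M ≃ₐ[ℚ] M, P.nv none (σ y) ≤ H ^ 2 := by
    intro σ
    rw [hy, map_mul, map_natCast, P.mul none mem_none, nat_none, sq]
    exact mul_le_mul h2 (h4 σ) (P.nn _ _) (by linarith)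
  have hN : IsIntegral ℤ (Algebra.norm ℚ y) := Algebra.isIntegral_norm ℚ hyi
  obtain ⟨k, hk⟩ := IsIntegrallyClosed.isIntegral_iff.1 hN
  have hk' : ((k : ℤ) : ℚ) = Algebra.norm ℚ y := by
    rw [← hk]
    simp
  have hk0 : k ≠ 0 := by
    intro h
    rw [h, Int.cast_zero] at hk'
    exact hy0 (Algebra.norm_eq_zero_iff.1 hk'.symm)
  have hprod : ∏ σ : M ≃ₐ[ℚ] M, P.nv none (σ y) = |(k : ℝ)| := by
    rw [g2 none mem_none y, ← hk']
    simp [av]
  have hprod2 : ∏ σ : M ≃ₐ[ℚ] M, σ y = (k : M) := by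
    have h5 := Algebra.norm_eq_prod_automorphisms ℚ y
    rw [← hk'] at h5
    rw [← h5]
    simp
  have hk1 : (1 : ℝ) ≤ |(k : ℝ)| := by exact_mod_cast Int.one_le_abs hk0
  have hkH : |(k : ℝ)| ≤ (H ^ 2) ^ g := by
    rw [← hprod]
    calc ∏ σ : M ≃ₐ[ℚ] M, P.nv none (σ y) ≤ ∏ _σ : M ≃ₐ[ℚ] M, H ^ 2 :=
          Finset.prod_le_prod (fun σ _ => P.nn _ _) (fun σ _ => hyb σ)
      _ = (H ^ 2) ^ g := by rw [Finset.prod_const, Finset.card_univ]
  have hH2g : (H ^ 2) ^ g ≤ H ^ (2 * g + 1) := by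
    rw [← pow_mul]
    exact pow_le_pow_right₀ hH (by omega)
  refine ⟨k.natAbs, Int.natAbs_ne_zero.mpr hk0, ?_, ?_, fun σ => ?_⟩
  · rw [Nat.cast_natAbs, Int.cast_abs]
    exact hkH.trans hH2g
  · -- integrality
    have h5 : IsIntegral ℤ ((k : M) * z⁻¹) := by
      have h6 : (k : M) * z⁻¹ = (D : M) * ∏ σ ∈ (Finset.univ : Finset (M ≃ₐ[ℚ] M)).erase 1, σ y := by
        have h7 : (1 : M ≃ₐ[ℚ] M) y * ∏ σ ∈ (Finset.univ : Finset (M ≃ₐ[ℚ] M)).erase 1, σ y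
            = (k : M) := by
          rw [Finset.mul_prod_erase _ (fun σ : M ≃ₐ[ℚ] M => σ y) (Finset.mem_univ 1), hprod2]
        rw [← h7, AlgEquiv.one_apply, hy]
        field_simp
      rw [h6]
      refine (isInt_natM D).mul (IsIntegral.prod _ fun σ _ => ?_)
      exact hyi.map (σ : M →+* M).toIntAlgHom
    rcases Int.natAbs_eq k with h | h
    · have h6 : ((k.natAbs : ℕ) : M) = (k : M) := by
        conv_rhs => rw [h]
        simp
      rw [h6]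
      exact h5
    · have h6 : ((k.natAbs : ℕ) : M) = -(k : M) := by
        conv_rhs => rw [h]
        simp
      rw [h6, neg_mul]
      exact h5.neg
  · rw [map_inv₀, P.inv mem_none]
    have h5 : P.nv none (σ y) * ∏ τ ∈ (Finset.univ : Finset (M ≃ₐ[ℚ] M)).erase σ, P.nv none (τ y)
        = |(k : ℝ)| := by
      rw [Finset.mul_prod_erase _ (fun σ : M ≃ₐ[ℚ] M => P.nv none (σ y)) (Finset.mem_univ σ), hprod]
    have h6 : ∏ τ ∈ (Finset.univ : Finset (M ≃ₐ[ℚ] M)).erase σ, P.nv none (τ y) ≤ (H ^ 2) ^ g := by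
      calc ∏ τ ∈ (Finset.univ : Finset (M ≃ₐ[ℚ] M)).erase σ, P.nv none (τ y)
          ≤ ∏ _τ ∈ (Finset.univ : Finset (M ≃ₐ[ℚ] M)).erase σ, H ^ 2 :=
            Finset.prod_le_prod (fun σ _ => P.nn _ _) (fun σ _ => hyb σ)
        _ = (H ^ 2) ^ ((Finset.univ : Finset (M ≃ₐ[ℚ] M)).erase σ).card := Finset.prod_const _
        _ ≤ (H ^ 2) ^ g := by
            apply pow_le_pow_right₀ (one_le_pow₀ hH)
            exact (Finset.card_le_univ _)
    have h7 : σ y = (D : M) * σ z := by rw [hy, map_mul, map_natCast]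
    have hσz : 0 < P.nv none (σ z) := P.pos none mem_none _ (by
      intro h
      exact hz0 ((map_eq_zero_iff σ σ.injective).1 h))
    rw [h7, P.mul none mem_none, nat_none] at h5
    rw [inv_eq_one_div, div_le_iff₀ hσz]
    have h8 : 1 ≤ (D : ℝ) * P.nv none (σ z) * (H ^ 2) ^ g := by
      refine hk1.trans ?_
      rw [← h5]
      exact mul_le_mul_of_nonneg_left h6 (by positivity)
    calc (1 : ℝ) ≤ (D : ℝ) * P.nv none (σ z) * (H ^ 2) ^ g := h8
      _ = ((H ^ 2) ^ g * D) * P.nv none (σ z) := by ring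
      _ ≤ ((H ^ 2) ^ g * H) * P.nv none (σ z) := by
          apply mul_le_mul_of_nonneg_right _ hσz.le
          exact mul_le_mul_of_nonneg_left h2 (by positivity)
      _ = H ^ (2 * g + 1) * P.nv none (σ z) := by rw [pow_succ H (2 * g), pow_mul]

/-- `S`-units -/
theorem SP_SV [IsGalois ℚ M] (hS : ∀ p ∈ S, p.Prime) {R : ℝ} (hR : 1 ≤ R) {u : M}
    (hu : SV S u) (h : ∀ v ∈ plc S, ∀ σ : M ≃ₐ[ℚ] M, P.nv v (σ u) ≤ R) :
    SP P ((∏ p ∈ S, (p : ℝ)) * R ^ (S.card + 1)) u := by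
  have hAV := Pool.Agent.Helper15.SUB.AV
  obtain ⟨h1, -⟩ := Pool.Agent.Helper89.SUBK.DEN hAV Pool.Agent.Helper9.SUBK.st_GALA
    (Pool.Agent.Helper9.SUBK.st_INTG hAV) M S P hS
  obtain ⟨n, hn, hn2, hn3⟩ := h1 R hR
  have hp1 : (1 : ℝ) ≤ ∏ p ∈ S, (p : ℝ) := by
    have h0 : (1 : ℕ) ≤ ∏ p ∈ S, p := Finset.one_le_prod' fun p hp => (hS p hp).one_lt.le
    have h2 : ((1 : ℕ) : ℝ) ≤ ((∏ p ∈ S, p : ℕ) : ℝ) := Nat.cast_le.mpr h0
    push_cast at h2
    exact h2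
  have hR1 : R ^ S.card ≤ R ^ (S.card + 1) := pow_le_pow_right₀ hR (by omega)
  have hR2 : R ≤ R ^ (S.card + 1) := le_self_pow₀ hR (by omega)
  refine ⟨n, hn.1, ?_, hn3 u hu.2.1 fun p hp σ => h (some p) (mem_some hp) σ, fun σ => ?_⟩
  · refine hn2.trans ?_
    exact mul_le_mul_of_nonneg_left hR1 (by linarith)
  · refine (h none mem_none σ).trans (hR2.trans ?_)
    have : 0 ≤ R ^ (S.card + 1) := by positivity
    nlinarith

theorem SP_int {H : ℝ} (hH : 1 ≤ H) (c : ℤ) (hc : |(c : ℝ)| ≤ H) : SP P H (c : M) := by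
  refine ⟨1, one_ne_zero, by push_cast; exact hH, ?_, fun σ => ?_⟩
  · rw [Nat.cast_one, one_mul]
    have : (c : M) = algebraMap ℤ M c := by simp
    rw [this]
    exact isIntegral_algebraMap
  · rw [map_intCast, P.intCast mem_none]
    simpa [av] using hc

end pointwise

section filt

variable {M : Type} [Field M] [NumberField M] {S : Finset ℕ} {P : PF S M} {φ : Ultrafilter ℕ}
  {X : ℕ → ℝ}

theorem ev_one (hX : Tendsto X (φ : Filter ℕ) atTop) : ∀ᶠ j in (φ : Filter ℕ), 1 ≤ X j :=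
  hX.eventually (eventually_ge_atTop 1)

theorem ev_const (hX : Tendsto X (φ : Filter ℕ) atTop) (C : ℝ) {ε : ℝ} (hε : 0 < ε) :
    ∀ᶠ j in (φ : Filter ℕ), C ≤ X j ^ ε :=
  ((tendsto_rpow_atTop hε).comp hX).eventually (eventually_ge_atTop C)

/-- general criterion -/
theorem slw_of2 (hX : Tendsto X (φ : Filter ℕ) atTop) {z z' y : ℕ → M} (C : ℝ) (n : ℕ)
    (h : ∀ j, ∀ H : ℝ, 1 ≤ H → SP P H (z j) → SP P H (z' j) → SP P (C * H ^ n) (y j))
    (hz : Slw P φ X z) (hz' : Slw P φ X z') : Slw P φ X y := by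
  intro ε hε
  have hn : (0 : ℝ) < n + 1 := by positivity
  have hε' : 0 < ε / (2 * (n + 1)) := by positivity
  filter_upwards [hz _ hε', hz' _ hε', ev_one hX, ev_const hX C (half_pos hε)] with j h1 h2 h3 h4
  have hX0 : 0 < X j := by linarith
  have h5 : 1 ≤ X j ^ (ε / (2 * (n + 1))) := Real.one_le_rpow h3 hε'.le
  refine SP_mono ?_ (h j _ h5 h1 h2)
  rw [← Real.rpow_natCast, ← Real.rpow_mul hX0.le]
  have h6 : X j ^ (ε / (2 * (n + 1)) * (n : ℝ)) ≤ X j ^ (ε / 2) := by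
    apply Real.rpow_le_rpow_of_exponent_le h3
    rw [div_mul_eq_mul_div, div_le_div_iff₀ (by positivity) (by norm_num)]
    nlinarith
  calc C * X j ^ (ε / (2 * (n + 1)) * (n : ℝ)) ≤ X j ^ (ε / 2) * X j ^ (ε / (2 * (n + 1)) * (n : ℝ)) :=
        mul_le_mul_of_nonneg_right h4 (by positivity)
    _ ≤ X j ^ (ε / 2) * X j ^ (ε / 2) := mul_le_mul_of_nonneg_left h6 (by positivity)
    _ = X j ^ ε := by rw [← Real.rpow_add hX0]; congr 1; ring

theorem slw_const (hX : Tendsto X (φ : Filter ℕ) atTop) (c : M) : Slw P φ X (fun _ => c) := by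
  obtain ⟨H, hH⟩ := SP_ex (P := P) c
  intro ε hε
  filter_upwards [ev_const hX H hε] with j h1
  exact SP_mono h1 hH

theorem slw_add (hX : Tendsto X (φ : Filter ℕ) atTop) {z z' : ℕ → M} (hz : Slw P φ X z)
    (hz' : Slw P φ X z') : Slw P φ X (fun j => z j + z' j) :=
  slw_of2 hX 2 2 (fun _ _ hH h1 h2 => SP_add hH h1 h2) hz hz'

theorem slw_mul (hX : Tendsto X (φ : Filter ℕ) atTop) {z z' : ℕ → M} (hz : Slw P φ X z)
    (hz' : Slw P φ X z') : Slw P φ X (fun j => z j * z' j) :=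
  slw_of2 hX 1 2 (fun _ _ hH h1 h2 => by rw [one_mul]; exact SP_mul hH h1 h2) hz hz'

theorem slw_inv [IsGalois ℚ M] (hS : ∀ p ∈ S, p.Prime) (hX : Tendsto X (φ : Filter ℕ) atTop)
    {z : ℕ → M} (hz : Slw P φ X z) : Slw P φ X (fun j => (z j)⁻¹) :=
  slw_of2 hX 1 (2 * Fintype.card (M ≃ₐ[ℚ] M) + 1)
    (fun _ _ hH h1 _ => by rw [one_mul]; exact SP_inv hS hH h1) hz hz

theorem slw_conj {z : ℕ → M} (hz : Slw P φ X z) (σ : M ≃ₐ[ℚ] M) :
    Slw P φ X (fun j => σ (z j)) := by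
  intro ε hε
  filter_upwards [hz ε hε] with j h1
  exact SP_conj h1 σ

theorem slw_nv (hS : ∀ p ∈ S, p.Prime) {z : ℕ → M} (hz : Slw P φ X z) {v : Option ℕ}
    (hv : v ∈ plc S) (σ : M ≃ₐ[ℚ] M) {ε : ℝ} (hε : 0 < ε) :
    ∀ᶠ j in (φ : Filter ℕ), P.nv v (σ (z j)) ≤ X j ^ ε := by
  filter_upwards [hz ε hε] with j h1
  exact SP_nv hS h1 hv σ

theorem slw_low [IsGalois ℚ M] (hS : ∀ p ∈ S, p.Prime) (hX : Tendsto X (φ : Filter ℕ) atTop)
    {z : ℕ → M} (hz : Slw P φ X z) (hz0 : ∀ᶠ j in (φ : Filter ℕ), z j ≠ 0) {v : Option ℕ}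
    (hv : v ∈ plc S) (σ : M ≃ₐ[ℚ] M) {ε : ℝ} (hε : 0 < ε) :
    ∀ᶠ j in (φ : Filter ℕ), X j ^ (-ε) ≤ P.nv v (σ (z j)) := by
  filter_upwards [slw_nv hS (slw_inv hS hX hz) hv σ hε, hz0, ev_one hX] with j h1 h2 h3
  have hX0 : 0 < X j := by linarith
  have h4 : 0 < P.nv v (σ (z j)) := P.pos v hv _ (by
    intro h
    exact h2 ((map_eq_zero_iff σ σ.injective).1 h))
  rw [map_inv₀, P.inv hv] at h1
  rw [Real.rpow_neg hX0.le]
  exact inv_le_of_inv_le₀ h4 h1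

theorem slw_congr {z z' : ℕ → M} (h : ∀ᶠ j in (φ : Filter ℕ), z j = z' j) (hz : Slw P φ X z) :
    Slw P φ X z' := by
  intro ε hε
  filter_upwards [hz ε hε, h] with j h1 h2
  rw [← h2]
  exact h1

theorem slw_root (hX : Tendsto X (φ : Filter ℕ) atTop) {z : ℕ → M} {n : ℕ} (hn : n ≠ 0)
    (hz : Slw P φ X (fun j => z j ^ n)) : Slw P φ X z := by
  intro ε hε
  filter_upwards [hz ε hε, ev_one hX] with j h1 h2
  exact SP_root (Real.one_le_rpow h2 hε.le) hn h1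

theorem slw_SV [IsGalois ℚ M] (hS : ∀ p ∈ S, p.Prime) (hX : Tendsto X (φ : Filter ℕ) atTop)
    {u : ℕ → M} (hu : ∀ᶠ j in (φ : Filter ℕ), SV S (u j))
    (h : ∀ v ∈ plc S, ∀ (σ : M ≃ₐ[ℚ] M) (ε : ℝ), 0 < ε →
      ∀ᶠ j in (φ : Filter ℕ), P.nv v (σ (u j)) ≤ X j ^ ε) : Slw P φ X u := by
  intro ε hε
  have hε' : 0 < ε / (2 * (S.card + 2)) := by positivity
  have h0 : ∀ᶠ j in (φ : Filter ℕ), ∀ v ∈ plc S, ∀ σ : M ≃ₐ[ℚ] M,
      P.nv v (σ (u j)) ≤ X j ^ (ε / (2 * (S.card + 2))) := by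
    rw [Filter.eventually_all_finset]
    intro v hv
    rw [Filter.eventually_all]
    intro σ
    exact h v hv σ _ hε'
  filter_upwards [hu, h0, ev_one hX, ev_const hX (∏ p ∈ S, (p : ℝ)) (half_pos hε)] with j h1 h2 h3 h4
  have hX0 : 0 < X j := by linarith
  refine SP_mono ?_ (SP_SV hS (Real.one_le_rpow h3 hε'.le) h1 h2)
  rw [← Real.rpow_natCast, ← Real.rpow_mul hX0.le]
  have h6 : X j ^ (ε / (2 * (S.card + 2)) * ((S.card + 1 : ℕ) : ℝ)) ≤ X j ^ (ε / 2) := by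
    apply Real.rpow_le_rpow_of_exponent_le h3
    rw [div_mul_eq_mul_div, div_le_div_iff₀ (by positivity) (by norm_num)]
    push_cast
    nlinarith
  calc (∏ p ∈ S, (p : ℝ)) * X j ^ (ε / (2 * (S.card + 2)) * ((S.card + 1 : ℕ) : ℝ))
      ≤ X j ^ (ε / 2) * X j ^ (ε / (2 * (S.card + 2)) * ((S.card + 1 : ℕ) : ℝ)) :=
        mul_le_mul_of_nonneg_right h4 (by positivity)
    _ ≤ X j ^ (ε / 2) * X j ^ (ε / 2) := mul_le_mul_of_nonneg_left h6 (by positivity)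
    _ = X j ^ ε := by rw [← Real.rpow_add hX0]; congr 1; ring

theorem slw_int (hX : Tendsto X (φ : Filter ℕ) atTop) {c : ℕ → ℤ}
    (h : ∀ ε : ℝ, 0 < ε → ∀ᶠ j in (φ : Filter ℕ), |(c j : ℝ)| ≤ X j ^ ε) :
    Slw P φ X (fun j => (c j : M)) := by
  intro ε hε
  filter_upwards [h ε hε, ev_one hX] with j h1 h2
  exact SP_int (Real.one_le_rpow h2 hε.le) _ h1

theorem slw_sum (hX : Tendsto X (φ : Filter ℕ) atTop) {ι : Type} (s : Finset ι) (f : ι → ℕ → M)
    (hf : ∀ i ∈ s, Slw P φ X (f i)) :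
    Slw P φ X (fun j => ∑ i ∈ s, f i j) ∧ Slw P φ X (fun j => ∏ i ∈ s, f i j) := by
  classical
  induction s using Finset.induction_on with
  | empty =>
    simp only [Finset.sum_empty, Finset.prod_empty]
    exact ⟨slw_const hX 0, slw_const hX 1⟩
  | insert a s ha ih =>
    simp only [Finset.sum_insert ha, Finset.prod_insert ha]
    obtain ⟨h1, h2⟩ := ih fun i hi => hf i (Finset.mem_insert_of_mem hi)
    have h3 := hf a (Finset.mem_insert_self a s)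
    exact ⟨slw_add hX h3 h1, slw_mul hX h3 h2⟩

theorem slw_den (hX : Tendsto X (φ : Filter ℕ) atTop) {ι : Type} (s : Finset ι) (f : ι → ℕ → M)
    (hf : ∀ i ∈ s, Slw P φ X (f i)) (ε : ℝ) (hε : 0 < ε) :
    ∀ᶠ j in (φ : Filter ℕ), ∃ D : ℕ, D ≠ 0 ∧ (D : ℝ) ≤ X j ^ ε ∧
      ∀ i ∈ s, IsIntegral ℤ ((D : M) * f i j) := by
  classical
  induction s using Finset.induction_on generalizing ε with
  | empty =>
    filter_upwards [ev_one hX] with j h1
    refine ⟨1, one_ne_zero, ?_, fun i hi => absurd hi (Finset.notMem_empty i)⟩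
    push_cast
    exact Real.one_le_rpow h1 hε.le
  | insert a s ha ih =>
    filter_upwards [ih (fun i hi => hf i (Finset.mem_insert_of_mem hi)) (ε / 2) (half_pos hε),
      hf a (Finset.mem_insert_self a s) (ε / 2) (half_pos hε), ev_one hX] with j h1 h2 h3
    obtain ⟨D, d1, d2, d3⟩ := h1
    obtain ⟨D', e1, e2, e3, -⟩ := h2
    have hX0 : 0 < X j := by linarith
    refine ⟨D * D', mul_ne_zero d1 e1, ?_, fun i hi => ?_⟩
    · push_cast
      calc (D : ℝ) * D' ≤ X j ^ (ε / 2) * X j ^ (ε / 2) :=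
            mul_le_mul d2 e2 (Nat.cast_nonneg _) (by positivity)
        _ = X j ^ ε := by rw [← Real.rpow_add hX0]; congr 1; ring
    · rcases Finset.mem_insert.mp hi with rfl | hi'
      · have h : ((D * D' : ℕ) : M) * f i j = (D : M) * ((D' : M) * f i j) := by push_cast; ring
        rw [h]
        exact (isInt_natM D).mul e3
      · have h : ((D * D' : ℕ) : M) * f i j = (D' : M) * ((D : M) * f i j) := by push_cast; ring
        rw [h]
        exact (isInt_natM D').mul (d3 i hi')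

theorem slw_scale (hX : Tendsto X (φ : Filter ℕ) atTop) {X' : ℕ → ℝ} {A : ℝ} (hA : 0 < A)
    (hX' : Tendsto X' (φ : Filter ℕ) atTop) (h : ∀ᶠ j in (φ : Filter ℕ), X j ≤ X' j ^ A)
    {B : ℝ} (hB : 0 < B) : ∀ᶠ j in (φ : Filter ℕ), X j ^ B ≤ X' j ^ (A * B) := by
  filter_upwards [h, ev_one hX, ev_one hX'] with j h1 h2 h3
  rw [Real.rpow_mul (by linarith)]
  exact Real.rpow_le_rpow (by linarith) h1 hB.le

end filt

/-- **Row SLW.** -/
theorem SLW : ST_SLW := by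
  intro M _ _ _ S P φ X hS hX
  refine ⟨fun c => slw_const hX c, fun z z' h h' => ⟨slw_add hX h h', slw_mul hX h h'⟩,
    fun z h => slw_inv hS hX h, fun z σ h => slw_conj h σ,
    fun z h v hv σ ε hε => slw_nv hS h hv σ hε,
    fun z h h0 v hv σ ε hε => slw_low hS hX h h0 hv σ hε,
    fun z z' h h' => slw_congr h h', fun z n hn h => slw_root hX hn h,
    fun u hu h => slw_SV hS hX hu h, fun c h => slw_int hX h,
    fun ι s f hf => slw_sum hX s f hf, fun ι s f hf ε hε => slw_den hX s f hf ε hε,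
    fun X' A hA hX' h => ⟨fun z hz ε hε => ?_, fun u hu => ⟨hu.1, ?_⟩⟩⟩
  · have hεA : 0 < ε / A := by positivity
    filter_upwards [hz (ε / A) hεA, slw_scale hX hA hX' h hεA] with j h1 h2
    refine SP_mono (h2.trans (le_of_eq ?_)) h1
    congr 1
    field_simp
  · obtain ⟨B, hB, hu2⟩ := hu.2
    refine ⟨A * B, by positivity, ?_⟩
    filter_upwards [hu2, slw_scale hX hA hX' h hB] with j h1 h2
    exact fun v hv σ => (h1 v hv σ).trans h2

end Pool.Agent.Helper94.SUBW
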